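import Pool.Agent.helper60.EPT.Spec

/-!
# Row CLL: the rules for lists
-/

set_option autoImplicit false

namespace Pool.Agent.EPT

open D

theorem CLL (hC : Cal) (hREV : REV_stmt) (hMAP : MAP_stmt) (hFLT : FLT_stmt) (hFLM : FLM_stmt) (hANY : ANY_stmt) (hZPF : ZPF_stmt) (hDRP : DRP_stmt) (hLOK : LOK_stmt) (hDDF : DDF_stmt) (hTRC : TRC_stmt) : CLL_stmt where
  rev l hl := hC.comp (fun x => ofList x.toList.reverse) l hREV.1 hl
  app := hREV.2
  map := hMAP
  filter := hFLT
  flatMap := hFLM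
  any f l e hf hl he := (hANY.1 f l e hf hl he).1
  all f l e hf hl he := (hANY.1 f l e hf hl he).2
  mem := hANY.2
  zp := hZPF
  drop n l hn hl := (hDRP n l hn hl).1
  take n l hn hl := (hDRP n l hn hl).2
  look := hLOK
  dd := hDDF
  rc := hTRC

end Pool.Agent.EPT
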