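import Pool.Agent.helper60.EPT.SpecS

set_option autoImplicit false

namespace Pool.Agent.EPT

open D

theorem SSE_ex {α : Type} [DecidableEq α] (F : Finset (Finset α)) :
    ∀ (n : ℕ) (C : Finset α), C ∈ F → C.card = n → ∃ C' ∈ red F, C' ⊆ C := by
  intro n
  induction n using Nat.strong_induction_on with
  | _ n ih =>
    intro C hC hn
    by_cases h : ∀ C' ∈ F, C' ⊆ C → C' = C
    · exact ⟨C, by unfold red; exact Finset.mem_filter.2 ⟨hC, h⟩, Finset.Subset.refl C⟩
    · push Not at h
      obtain ⟨C', hC', hsub, hne⟩ := h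
      have hlt : C'.card < n := by
        rw [← hn]
        exact Finset.card_lt_card (Finset.ssubset_iff_subset_ne.2 ⟨hsub, hne⟩)
      obtain ⟨C'', h1, h2⟩ := ih C'.card hlt C' hC' rfl
      exact ⟨C'', h1, h2.trans hsub⟩

theorem SSE_red {α : Type} [DecidableEq α] (t : α → Prop) (F : Finset (Finset α)) :
    SatF t (red F) ↔ SatF t F := by
  constructor
  · intro h C hC
    obtain ⟨C', h1, h2⟩ := SSE_ex F C.card C hC rfl
    obtain ⟨l, hl, ht⟩ := h C' h1
    exact ⟨l, h2 hl, ht⟩
  · intro h C hC
    unfold red at hC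
    exact h C (Finset.mem_filter.1 hC).1

theorem SSE : SSE_stmt := by
  intro α _ t F
  refine ⟨SSE_red t F, ?_⟩
  intro j H
  rw [SSE_red, SSE_red]
  constructor
  · intro h
    by_cases hH : ∃ l ∈ H, t l
    · left
      intro C hC
      rcases Finset.mem_union.1 hC with h1 | h1
      · exact h C h1
      · rw [Finset.mem_singleton.1 h1]
        exact hH
    · right
      intro C hC
      rcases Finset.mem_union.1 hC with h1 | h1
      · exact h C h1
      · unfold pet at h1
        obtain ⟨C', hC', he⟩ := Finset.mem_image.1 h1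
        obtain ⟨l, hl, ht⟩ := h C' (Finset.mem_filter.1 hC').1
        refine ⟨l, ?_, ht⟩
        rw [← he]
        refine Finset.mem_sdiff.2 ⟨hl, ?_⟩
        intro hlH
        exact hH ⟨l, hlH, ht⟩
  · rintro (h | h)
    · intro C hC
      exact h C (Finset.mem_union_left _ hC)
    · intro C hC
      exact h C (Finset.mem_union_left _ hC)

end Pool.Agent.EPT
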